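import Pool.Agent.Helper8_HK.Stmt4

/-! helper17: module CEX of squad HK (existence of the completion of an algebraic closure). -/

namespace Pool.Agent.HK.H17C

open Polynomial Filter

theorem cex (hK : KNFStmt) (hA : ACPStmt) : CEXStmt := by
  intro F _ _
  obtain ⟨K, i1, i2, i3, e, he⟩ := hK F
  letI : NormedField (AlgebraicClosure K) := spectralNorm.normedField K (AlgebraicClosure K)
  letI : NormedAlgebra K (AlgebraicClosure K) :=
    spectralNorm.normedAlgebra K (AlgebraicClosure K)
  let C : Type := UniformSpace.Completion (AlgebraicClosure K)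
  haveI hT : IsScalarTower K (AlgebraicClosure K) C :=
    IsScalarTower.of_algebraMap_eq (congrFun rfl)
  haveI hU : IsUltrametricDist C := IsUltrametricDist.of_normedAlgebra K
  letI hNN : NontriviallyNormedField C :=
    { (inferInstance : NormedField C) with
      non_trivial := by
        obtain ⟨x, hx⟩ := NontriviallyNormedField.non_trivial (α := K)
        refine ⟨algebraMap K C x, ?_⟩
        rw [norm_algebraMap']
        exact hx }
  obtain ⟨p, hp⟩ := CharP.exists F
  haveI hpp : Fact p.Prime := ⟨CharP.char_is_prime F p⟩
  let ι : Kinf F →+* C := (algebraMap K C).comp e.toRingHom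
  haveI hC : CharP C p := charP_of_injective_ringHom (f := ι.comp (cst F))
    (ι.comp (cst F)).injective p
  have hclosed : IsAlgClosed C := hA p (AlgebraicClosure K) C UniformSpace.Completion.denseRange_coe
  refine ⟨C, hNN.toNormedField, hclosed, inferInstance, hU, ι, ?_, ?_⟩
  · intro x hx
    rw [← he x hx]
    show ‖algebraMap K C (e x)‖ = ‖e x‖
    rw [norm_algebraMap']
  · refine (UniformSpace.Completion.denseRange_coe (α := AlgebraicClosure K)).mono ?_
    rintro _ ⟨a, rfl⟩
    obtain ⟨P, hP0, hP⟩ := (AlgebraicClosure.isAlgebraic K).isAlgebraic a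
    refine ⟨P.map e.symm.toRingHom, ?_, ?_⟩
    · rw [Ne, Polynomial.map_eq_zero_iff e.symm.injective]
      exact hP0
    · rw [Polynomial.eval₂_map]
      have h1 : ι.comp e.symm.toRingHom = algebraMap K C := by
        ext y
        show algebraMap K C (e (e.symm y)) = _
        rw [e.apply_symm_apply]
      rw [h1]
      have h2 : P.eval₂ (algebraMap K C) (a : C) = algebraMap (AlgebraicClosure K) C (aeval a P) := by
        rw [← Polynomial.aeval_algebraMap_apply]
        rfl
      rw [h2, hP, map_zero]

end Pool.Agent.HK.H17C
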