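import Pool.Agent.Helper8_HK.Stmt3
import Pool.Agent.Helper8_HK.Stmt0

/-! helper17: module FDM of squad HK (the fundamental domain). -/

namespace Pool.Agent.HK.H17

open Polynomial Filter

theorem finite_natDegree_le (F : Type) [Field F] [Fintype F] (D : ℕ) :
    {p : F[X] | p.natDegree ≤ D}.Finite := by
  refine (Set.finite_range (fun s : Fin (D + 1) → F =>
    ∑ i : Fin (D + 1), monomial (i : ℕ) (s i))).subset ?_
  intro p hp
  refine ⟨fun i => p.coeff i, ?_⟩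
  have h := p.as_sum_range' (D + 1) (Nat.lt_succ_of_le hp)
  rw [Finset.sum_range] at h
  exact h.symm

theorem one_lt_card (F : Type) [Field F] [Fintype F] : (1 : ℝ) < ((Fintype.card F : ℕ) : ℝ) := by
  exact_mod_cast Fintype.one_lt_card

theorem norm_emb (hL : LAUStmt) (hI : IMAStmt) {F : Type} [Field F] [Fintype F] {C : Type}
    [NormedField C] [IsAlgClosed C] [CompleteSpace C] [IsUltrametricDist C] {ι : Kinf F →+* C}
    (hι : NormOK ι) (a : F[X]) (ha : a ≠ 0) :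
    ‖ι (emb F a)‖ = ((Fintype.card F : ℕ) : ℝ) ^ a.natDegree := by
  obtain ⟨l1, l2, -⟩ := hL F
  obtain ⟨-, -, i3, -⟩ := hI F C ι hι
  have h1 : InO (-(a.natDegree : ℤ)) (emb F a) := by
    intro i hi
    obtain ⟨j, rfl⟩ : ∃ j : ℕ, i = -(j : ℤ) := ⟨i.natAbs, by omega⟩
    rw [l1]
    exact Polynomial.coeff_eq_zero_of_natDegree_lt (by omega)
  have h2 : HahnSeries.coeff (emb F a) (-(a.natDegree : ℤ)) ≠ 0 := by
    rw [l1]
    exact Polynomial.leadingCoeff_ne_zero.2 ha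
  rw [i3 _ _ h1 h2, neg_neg, zpow_natCast]

theorem fdm (hI : IMAStmt) (hM : IMMStmt) (hX : MTXStmt) (hL : LAUStmt) : FDMStmt := by
  intro F _ _ C _ _ _ _ ι hι z hz
  have hne := fun a ha => norm_emb hL hI hι a ha
  obtain ⟨l1, l2, l3, l4, l5, l6, l7, l8, l9, l10, l11, l12, l13⟩ := hL F
  obtain ⟨m1, m2, m3, m4, m5, m6, m7, m8, m9, m10, m11, m12, m13, m14, m15, m16, m17⟩ := hX F
  obtain ⟨i1, i2, i3, i4, i5, i6, i7, i8, i9, i10, i11⟩ := hI F C ι hι
  have hq := one_lt_card F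
  set q : ℝ := ((Fintype.card F : ℕ) : ℝ) with hqdef
  have hq0 : 0 < q := by linarith
  have hz0 : 0 < imz ι z := (i6 z hz).1
  set N : F[X] × F[X] → ℝ := fun p => ‖ι (emb F p.1) * z + ι (emb F p.2)‖ with hN
  have hlow : ∀ p : F[X] × F[X], p.1 ≠ 0 → q ^ p.1.natDegree * imz ι z ≤ N p := by
    intro p hp
    have h1 : ι (emb F p.1) ≠ 0 := by
      intro h
      have := hne p.1 hp
      rw [h, norm_zero] at this
      exact absurd this (by positivity)
    have h0 : emb F p.1 ≠ 0 := fun h => h1 (by rw [h, map_zero])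
    have h2 : ι (emb F p.1) * z + ι (emb F p.2) =
        ι (emb F p.1) * (z - ι (-(emb F p.2) / emb F p.1)) := by
      rw [map_div₀, map_neg]
      field_simp
      ring
    rw [hN]
    simp only
    rw [h2, norm_mul, hne p.1 hp]
    exact mul_le_mul_of_nonneg_left ((i5 z).2 _) (by positivity)
  obtain ⟨D1, hD1⟩ : ∃ D : ℕ, 1 / imz ι z < q ^ D := pow_unbounded_of_one_lt _ hq
  obtain ⟨D2, hD2⟩ : ∃ D : ℕ, 1 + q ^ D1 * ‖z‖ < q ^ D := pow_unbounded_of_one_lt _ hq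
  set P : Set (F[X] × F[X]) := {p | N p ≤ 1 ∧ ∃ γ : GLA F, γ 1 0 = p.1 ∧ γ 1 1 = p.2} with hP
  have hfin : P.Finite := by
    refine ((finite_natDegree_le F D1).prod (finite_natDegree_le F D2)).subset ?_
    rintro p ⟨hp, -⟩
    have hc : p.1.natDegree ≤ D1 := by
      by_cases h0 : p.1 = 0
      · rw [h0, natDegree_zero]; exact Nat.zero_le _
      · by_contra hcon
        have h1 := hlow p h0
        have h2 : q ^ D1 ≤ q ^ p.1.natDegree := pow_le_pow_right₀ hq.le (by omega)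
        rw [div_lt_iff₀ hz0] at hD1
        have h3 : q ^ D1 * imz ι z ≤ q ^ p.1.natDegree * imz ι z :=
          mul_le_mul_of_nonneg_right h2 hz0.le
        linarith
    refine Set.mem_prod.2 ⟨hc, ?_⟩
    show p.2.natDegree ≤ D2
    by_cases h0 : p.2 = 0
    · rw [h0, natDegree_zero]; exact Nat.zero_le _
    · by_contra hcon
      have h2 : q ^ D2 ≤ q ^ p.2.natDegree := pow_le_pow_right₀ hq.le (by omega)
      have h3 := hne p.2 h0
      have h4 : ‖ι (emb F p.2)‖ ≤ N p + ‖ι (emb F p.1) * z‖ := by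
        have h5 : ι (emb F p.2) = (ι (emb F p.1) * z + ι (emb F p.2)) - ι (emb F p.1) * z := by
          ring
        rw [hN]
        simp only
        nth_rewrite 1 [h5]
        exact norm_sub_le _ _
      have h6 : ‖ι (emb F p.1) * z‖ ≤ q ^ D1 * ‖z‖ := by
        rw [norm_mul]
        refine mul_le_mul_of_nonneg_right ?_ (norm_nonneg _)
        by_cases h7 : p.1 = 0
        · rw [h7, map_zero, map_zero, norm_zero]; positivity
        · rw [hne p.1 h7]; exact pow_le_pow_right₀ hq.le hc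
      linarith
  have hPn : P.Nonempty := by
    refine ⟨(0, 1), ?_, 1, ?_, ?_⟩
    · rw [hN]; simp
    · simp
    · simp
  obtain ⟨p, ⟨hp1, γ, hγ0, hγ1⟩, hmin⟩ := Set.exists_min_image P N hfin hPn
  have hmin' : ∀ δ : GLA F, N p ≤ N (δ 1 0, δ 1 1) := by
    intro δ
    by_cases h : N (δ 1 0, δ 1 1) ≤ 1
    · exact hmin _ ⟨h, δ, rfl, rfl⟩
    · linarith [not_le.1 h]
  obtain ⟨g00, g01, g10, g11⟩ := m12 γ
  obtain ⟨n1, n2, n3⟩ := (hM F C ι hι (toK γ)).1 z hz
  set z1 : C := mob ι (toK γ) z with hz1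
  obtain ⟨x, hx⟩ := (i6 z1 n2).2
  obtain ⟨b, hb⟩ := l11 x
  have hdet : IsUnit (γ 0 0 * γ 1 1 - γ 0 1 * γ 1 0) := by
    have h := Matrix.isUnits_det_units γ
    rwa [Matrix.det_fin_two] at h
  obtain ⟨δ, d00, d01, d10, d11⟩ := m13 (γ 0 0 - b * γ 1 0) (γ 0 1 - b * γ 1 1) (γ 1 0) (γ 1 1)
    (by
      have e : (γ 0 0 - b * γ 1 0) * γ 1 1 - (γ 0 1 - b * γ 1 1) * γ 1 0 =
        γ 0 0 * γ 1 1 - γ 0 1 * γ 1 0 := by ring
      rw [e]; exact hdet)
  obtain ⟨η, e00, e01, e10, e11⟩ := m13 (γ 1 0) (γ 1 1) (γ 0 0 - b * γ 1 0) (γ 0 1 - b * γ 1 1)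
    (by
      have e : γ 1 0 * (γ 0 1 - b * γ 1 1) - γ 1 1 * (γ 0 0 - b * γ 1 0) =
        -(γ 0 0 * γ 1 1 - γ 0 1 * γ 1 0) := by ring
      rw [e]; exact hdet.neg)
  obtain ⟨k00, k01, k10, k11⟩ := m12 δ
  rw [g10, g11] at n1
  have hmob : mob ι (toK δ) z = z1 - ι (emb F b) := by
    rw [hz1]
    unfold mob
    rw [k00, k01, k10, k11, g00, g01, g10, g11, d00, d01, d10, d11]
    simp only [map_sub, map_mul]
    field_simp
    ring
  have hge : 1 ≤ ‖mob ι (toK δ) z‖ := by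
    have h1 := hmin' η
    rw [e10, e11] at h1
    unfold mob
    rw [k00, k01, k10, k11, d00, d01, d10, d11, norm_div, one_le_div (norm_pos_iff.2 n1)]
    have h2 : N p = ‖ι (emb F (γ 1 0)) * z + ι (emb F (γ 1 1))‖ := by
      rw [hγ0, hγ1]
    rw [← h2]
    exact h1
  have him : imz ι (mob ι (toK δ) z) = ‖mob ι (toK δ) z - ι (x - emb F b)‖ := by
    rw [hmob]
    have h1 := (i7 z1 (-(emb F b))).1
    rw [map_neg, ← sub_eq_add_neg] at h1
    rw [h1, hx, map_sub]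
    congr 1
    ring
  have hsmall : ‖ι (x - emb F b)‖ < 1 := by
    refine lt_of_le_of_lt (i2 _ _ hb) ?_
    rw [zpow_neg, zpow_one]
    exact inv_lt_one_of_one_lt₀ hq
  have heq : ‖mob ι (toK δ) z - ι (x - emb F b)‖ = ‖mob ι (toK δ) z‖ := by
    have h1 : ‖mob ι (toK δ) z‖ ≠ ‖-ι (x - emb F b)‖ := by
      rw [norm_neg]
      exact ne_of_gt (by linarith)
    rw [sub_eq_add_neg, IsUltrametricDist.norm_add_eq_max_of_norm_ne_norm h1, norm_neg,
      max_eq_left (by linarith)]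
  refine ⟨δ, ?_, ?_⟩
  · rw [him, heq]
  · rw [him, heq]; exact hge

end Pool.Agent.HK.H17
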