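import Pool.Agent.Helper8_HK.Stmt3
import Pool.Agent.Helper8_HK.Stmt0

/-! helper17: module RKN of squad HK (from integrals to values). -/

namespace Pool.Agent.HK.H17R

open Polynomial Filter

section

variable {F : Type} [Field F] [Fintype F] {C : Type} [NormedField C] {ι : Kinf F →+* C}

theorem psi_sum {Ψ : (Kinf F → C) → C}
    (hadd : ∀ g g' : Kinf F → C, LipK ι g → LipK ι g' → Ψ (fun x => g x + g' x) = Ψ g + Ψ g')
    (hmul : ∀ (c : C) (g : Kinf F → C), LipK ι g → Ψ (fun x => c * g x) = c * Ψ g)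
    (hL1 : ∀ g g' : Kinf F → C, LipK ι g → LipK ι g' → LipK ι (fun x => g x + g' x) ∧
      LipK ι (fun x => g x * g' x))
    (hLc : ∀ c : C, LipK ι (fun _ : Kinf F => c))
    (c : ℕ → C) (g : ℕ → Kinf F → C) (hg : ∀ i, LipK ι (g i)) (s : Finset ℕ) :
    LipK ι (fun x => ∑ i ∈ s, c i * g i x) ∧
      Ψ (fun x => ∑ i ∈ s, c i * g i x) = ∑ i ∈ s, c i * Ψ (g i) := by
  classical
  induction s using Finset.induction_on with
  | empty =>
    refine ⟨by simpa using hLc 0, ?_⟩
    have h := hmul 0 (fun _ => 0) (hLc 0)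
    simpa using h
  | insert a s ha ih =>
    have h1 : LipK ι (fun x => c a * g a x) := (hL1 _ _ (hLc (c a)) (hg a)).2
    have e : (fun x => ∑ i ∈ insert a s, c i * g i x) =
        fun x => (fun x => c a * g a x) x + (fun x => ∑ i ∈ s, c i * g i x) x := by
      funext x
      rw [Finset.sum_insert ha]
    rw [e]
    refine ⟨(hL1 _ _ h1 ih.1).1, ?_⟩
    rw [hadd _ _ h1 ih.1, hmul _ _ (hg a), ih.2, Finset.sum_insert ha]

theorem one_var {Ψ : (Kinf F → C) → C}
    (hadd : ∀ g g' : Kinf F → C, LipK ι g → LipK ι g' → Ψ (fun x => g x + g' x) = Ψ g + Ψ g')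
    (hmul : ∀ (c : C) (g : Kinf F → C), LipK ι g → Ψ (fun x => c * g x) = c * Ψ g)
    (hL1 : ∀ g g' : Kinf F → C, LipK ι g → LipK ι g' → LipK ι (fun x => g x + g' x) ∧
      LipK ι (fun x => g x * g' x))
    (hLc : ∀ c : C, LipK ι (fun _ : Kinf F => c))
    (hLp : ∀ (g : Kinf F → C) (j : ℕ), LipK ι g → LipK ι (fun x => g x ^ j))
    (E Y : Kinf F → C) (hE : LipK ι E) (hY : LipK ι Y) (k : ℕ) (hk : k < Fintype.card F)
    (h0 : ∀ a : F, Ψ (fun x => (ι (cst F a) * E x + Y x) ^ k) = 0) (c : C) :
    Ψ (fun x => (c * E x + Y x) ^ k) = 0 := by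
  set g : ℕ → Kinf F → C := fun i x => (k.choose i : C) * (E x ^ i * Y x ^ (k - i)) with hgdef
  have hg : ∀ i, LipK ι (g i) := fun i =>
    (hL1 _ _ (hLc _) (hL1 _ _ (hLp _ i hE) (hLp _ (k - i) hY)).2).2
  set P : Polynomial C := ∑ i ∈ Finset.range (k + 1), Polynomial.C (Ψ (g i)) * X ^ i with hP
  have hev : ∀ c : C, Ψ (fun x => (c * E x + Y x) ^ k) = P.eval c := by
    intro c
    have e : (fun x => (c * E x + Y x) ^ k) =
        fun x => ∑ i ∈ Finset.range (k + 1), c ^ i * g i x := by
      funext x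
      rw [add_pow]
      refine Finset.sum_congr rfl (fun i _ => ?_)
      rw [hgdef]
      simp only
      rw [mul_pow]
      ring
    rw [e, (psi_sum hadd hmul hL1 hLc (fun i => c ^ i) g hg _).2, hP, Polynomial.eval_finset_sum]
    refine Finset.sum_congr rfl (fun i _ => ?_)
    rw [Polynomial.eval_mul, Polynomial.eval_C, Polynomial.eval_pow, Polynomial.eval_X, mul_comm]
  have hP0 : P = 0 := by
    refine Polynomial.eq_zero_of_natDegree_lt_card_of_eval_eq_zero P
      (f := fun a : F => ι (cst F a)) ?_ ?_ ?_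
    · exact (ι.comp (cst F)).injective
    · intro a
      rw [← hev, h0 a]
    · refine lt_of_le_of_lt ?_ hk
      rw [hP]
      refine Polynomial.natDegree_sum_le_of_forall_le _ _ (fun i hi => ?_)
      refine (Polynomial.natDegree_C_mul_X_pow_le _ _).trans ?_
      have := Finset.mem_range.1 hi
      omega
  rw [hev, hP0, Polynomial.eval_zero]

theorem norm_cst (hι : NormOK ι) (a : F) : ‖ι (cst F a)‖ ≤ 1 := by
  by_cases h : a = 0
  · rw [h, map_zero, map_zero, norm_zero]; exact zero_le_one
  · have h1 : cst F a ≠ 0 := by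
      rw [Ne, map_eq_zero]; exact h
    rw [hι _ h1]
    have h2 : HahnSeries.order (cst F a) = 0 := HahnSeries.order_C
    rw [h2]
    simp

theorem pow_diff [IsUltrametricDist C] (a b : C) (hb : ‖b‖ ≤ 1) (hab : ‖a - b‖ ≤ 1) (k : ℕ) :
    ‖b ^ k - a ^ k‖ ≤ ‖a - b‖ := by
  have ha : ‖a‖ ≤ 1 := by
    have h1 : a = (a - b) + b := by ring
    rw [h1]
    exact (IsUltrametricDist.norm_add_le_max _ _).trans (max_le hab hb)
  have h2 : b ^ k - a ^ k = -((∑ i ∈ Finset.range k, a ^ i * b ^ (k - 1 - i)) * (a - b)) := by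
    rw [(Commute.all a b).geom_sum₂_mul k]
    ring
  rw [h2, norm_neg, norm_mul]
  have h3 : ‖∑ i ∈ Finset.range k, a ^ i * b ^ (k - 1 - i)‖ ≤ 1 := by
    refine IsUltrametricDist.norm_sum_le_of_forall_le_of_nonneg zero_le_one (fun i _ => ?_)
    rw [norm_mul, norm_pow, norm_pow]
    exact mul_le_one₀ (pow_le_one₀ (norm_nonneg _) ha) (by positivity)
      (pow_le_one₀ (norm_nonneg _) hb)
  calc ‖∑ i ∈ Finset.range k, a ^ i * b ^ (k - 1 - i)‖ * ‖a - b‖ ≤ 1 * ‖a - b‖ :=
        mul_le_mul_of_nonneg_right h3 (norm_nonneg _)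
    _ = ‖a - b‖ := one_mul _

end

theorem rkn (hD : DIGStmt) (hN : INTStmt) (hP : LIPStmt) (hV : VALStmt) (hL : LAUStmt) :
    RKNStmt := by
  intro F _ _ _ C _ _ _ _ ι hι φ B n hφ hB hn e he hint m hm hdeg
  obtain ⟨l1, l2, l3, l4, l5, l6, l7, l8, l9, l10, l11, l12, l13⟩ := hL F
  obtain ⟨n1, n2, n3, n4, n5, n6, n7⟩ := hN F C ι hι φ B hφ hB
  obtain ⟨p1, p2, p3, p4⟩ := hP F C ι hι
  obtain ⟨cs, d1, d2⟩ := hD F C ι hι e he
  obtain ⟨v1, v2, v3, v4, v5, v6, v7⟩ := hV F C φ hφ
  obtain ⟨w1, w2, w3, w4⟩ := v7 n hn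
  have hcard : 1 < Fintype.card F := Fintype.one_lt_card
  set k : ℕ := Fintype.card F - 1 with hk
  have hk0 : k ≠ 0 := by omega
  have hkq : k < Fintype.card F := by omega
  have hzero : IntK φ (fun _ : Kinf F => (0 : C)) = 0 := by
    have h := n3 0 (fun _ => 0) (p2 0)
    simpa using h
  -- the start of the induction
  have hstart : ∀ p : F[X], IntK φ (fun x => (e (ι (emb F (p * m) * x))) ^ k) = 0 := by
    intro p
    by_cases hp : p = 0
    · have h1 : (fun x : Kinf F => (e (ι (emb F (p * m) * x))) ^ k) = fun _ => (0 : C) := by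
        funext x
        have h2 : e 0 = 0 := by
          have := he.van 0
          rwa [map_zero, map_zero] at this
        rw [hp, zero_mul, map_zero, zero_mul, map_zero, h2, zero_pow hk0]
      rw [h1, hzero]
    · set c : F := p.leadingCoeff with hc
      have hc0 : c ≠ 0 := Polynomial.leadingCoeff_ne_zero.2 hp
      have hmon : (Polynomial.C c⁻¹ * (p * m)).Monic := by
        have h3 : (Polynomial.C c⁻¹ * p).Monic := by
          rw [mul_comm]
          exact Polynomial.monic_mul_leadingCoeff_inv hp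
        have h4 : Polynomial.C c⁻¹ * (p * m) = (Polynomial.C c⁻¹ * p) * m := by ring
        rw [h4]
        exact h3.mul hm
      have h5 := hint _ hmon
      have h6 : (fun x : Kinf F => (e (ι (emb F (p * m) * x))) ^ k) =
          fun x => (e (ι (emb F (Polynomial.C c⁻¹ * (p * m)) * x))) ^ k := by
        funext x
        have h7 : ι (emb F (Polynomial.C c⁻¹ * (p * m)) * x) =
            ι (cst F c⁻¹) * ι (emb F (p * m) * x) := by
          rw [map_mul (emb F), l4, mul_assoc, map_mul ι]
        rw [h7, he.smul, mul_pow, ← map_pow, ← map_pow,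
          FiniteField.pow_card_sub_one_eq_one _ (inv_ne_zero hc0), map_one, map_one, one_mul]
      rw [h6]
      exact h5
  -- the functions `E_l`
  set E : ℕ → Kinf F → C := fun l x => e (ι (emb F (X ^ l) * (emb F m * x))) with hE
  have hEL : ∀ l, LipK ι (E l) := by
    intro l
    have h := p4 e he (emb F (X ^ l) * emb F m)
    have h2 : E l = fun x : Kinf F => e (ι (emb F (X ^ l) * emb F m * x)) := by
      funext x
      rw [hE]
      simp only
      rw [mul_assoc]
    rw [h2]
    exact h
  have hTL : ∀ q : F[X], LipK ι (fun x => e (ι (emb F q * x))) := fun q => p4 e he (emb F q)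
  have key : ∀ j : ℕ, LipK ι (fun x => ∑ l ∈ Finset.range j, cs l * E l x) ∧ ∀ p : F[X],
      IntK φ (fun x => (∑ l ∈ Finset.range j, cs l * E l x +
        e (ι (emb F (X ^ j * p * m) * x))) ^ k) = 0 := by
    intro j
    induction j with
    | zero =>
      refine ⟨by simpa using p2 0, fun p => ?_⟩
      simpa using hstart p
    | succ j ih =>
      obtain ⟨ih1, ih2⟩ := ih
      refine ⟨?_, fun p => ?_⟩
      · have h := (p1 _ _ ih1 (p1 _ _ (p2 (cs j)) (hEL j)).2).1
        have h2 : (fun x => ∑ l ∈ Finset.range (j + 1), cs l * E l x) = fun x =>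
            (fun x => ∑ l ∈ Finset.range j, cs l * E l x) x +
              (fun x => (fun _ => cs j) x * E j x) x := by
          funext x
          rw [Finset.sum_range_succ]
        rw [h2]
        exact h
      · have h := one_var n2 n3 p1 p2 p3 (E j)
          (fun x => ∑ l ∈ Finset.range j, cs l * E l x +
            e (ι (emb F (X ^ (j + 1) * p * m) * x))) (hEL j)
          (p1 _ _ ih1 (hTL _)).1 k hkq (fun a => ?_) (cs j)
        · have h2 : (fun x => (∑ l ∈ Finset.range (j + 1), cs l * E l x +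
              e (ι (emb F (X ^ (j + 1) * p * m) * x))) ^ k) = fun x =>
              (cs j * E j x + (∑ l ∈ Finset.range j, cs l * E l x +
                e (ι (emb F (X ^ (j + 1) * p * m) * x)))) ^ k := by
            funext x
            rw [Finset.sum_range_succ]
            ring
          rw [h2]
          exact h
        · have h3 := ih2 (Polynomial.C a + X * p)
          have h4 : (fun x => (ι (cst F a) * E j x + (∑ l ∈ Finset.range j, cs l * E l x +
                e (ι (emb F (X ^ (j + 1) * p * m) * x)))) ^ k) = fun x =>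
              (∑ l ∈ Finset.range j, cs l * E l x +
                e (ι (emb F (X ^ j * (Polynomial.C a + X * p) * m) * x))) ^ k := by
            funext x
            have h5 : ι (emb F (X ^ j * (Polynomial.C a + X * p) * m) * x) =
                ι (cst F a) * ι (emb F (X ^ j) * (emb F m * x)) +
                  ι (emb F (X ^ (j + 1) * p * m) * x) := by
              rw [← l4 a, ← map_mul ι, ← map_add ι]
              congr 1
              simp only [map_mul, map_add, map_pow]
              ring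
            rw [h5, he.add, he.smul]
            rw [hE]
            simp only
            ring
          rw [h4]
          exact h3
  -- the limit
  set lf : Kinf F → C := fun x => (ι (cst F (HahnSeries.coeff (emb F m * x) 1))) ^ k with hlf
  have hemb : InO (-(m.natDegree : ℤ)) (emb F m) := by
    intro i hi
    obtain ⟨j, rfl⟩ : ∃ j : ℕ, i = -(j : ℤ) := ⟨i.natAbs, by omega⟩
    rw [l1]
    exact Polynomial.coeff_eq_zero_of_natDegree_lt (by omega)
  have hloc : ∀ x y : Kinf F, InO 1 x → InO 1 y → InO (((4 : ℕ) : ℤ) + 1) (x - y) →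
      lf x = lf y := by
    intro x y _ _ hxy
    have h1 := (l8 _ _ _ _ hemb hxy).1 1 (by push_cast; omega)
    have h2 : HahnSeries.coeff (emb F m * x) 1 = HahnSeries.coeff (emb F m * y) 1 := by
      rw [mul_sub, HahnSeries.coeff_sub, sub_eq_zero] at h1
      exact h1
    rw [hlf]
    simp only
    rw [h2]
  obtain ⟨q1, q2⟩ := n6 lf 4 hloc
  have hgs : ∀ j, IntK φ (fun x => (∑ l ∈ Finset.range j, cs l * E l x) ^ k) = 0 := by
    intro j
    have h := (key j).2 0
    have h0 : e 0 = 0 := by
      have := he.van 0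
      rwa [map_zero, map_zero] at this
    simpa [h0] using h
  have hlim := n7 lf (fun _ => 0) (fun j x => (∑ l ∈ Finset.range j, cs l * E l x) ^ k) q1
    (fun j => p3 _ k (key j).1) (by
      intro ε hε
      have hq : (1 : ℝ) < ((Fintype.card F : ℕ) : ℝ) := by exact_mod_cast hcard
      obtain ⟨i0, hi0⟩ := exists_pow_lt_of_lt_one hε (inv_lt_one_of_one_lt₀ hq)
      refine ⟨i0, fun i hi x hx => ?_⟩
      have h1 := d2 (emb F m * x) i
      have h2 : (((Fintype.card F : ℕ) : ℝ) ^ i)⁻¹ ≤ ε := by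
        rw [← inv_pow]
        refine le_trans ?_ hi0.le
        exact pow_le_pow_of_le_one (by positivity) (inv_le_one_of_one_le₀ hq.le) hi
      have h3 : (((Fintype.card F : ℕ) : ℝ) ^ i)⁻¹ ≤ 1 :=
        inv_le_one_of_one_le₀ (one_le_pow₀ hq.le)
      have h4 := pow_diff _ _ (norm_cst hι (HahnSeries.coeff (emb F m * x) 1)) (h1.trans h3) k
      exact h4.trans (h1.trans h2))
    (fun j => (hgs j).symm)
  have hI : IntK φ lf = 0 := (tendsto_nhds_unique hlim tendsto_const_nhds)
  rw [q2] at hI
  -- the finite sum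
  have hdig : ∀ s : Fin 4 → F, dig 1 s = ∑ j : Fin 4, cst F (s j) * (unif F) ^ (1 + (j : ℕ)) := by
    intro s
    unfold dig
    refine Finset.sum_congr rfl (fun j _ => ?_)
    congr 1
  set u : (Fin 4 → F) → Kinf F := fun s =>
    ∑ j : Fin 4, cst F (s j) * (unif F) ^ (1 + (j : ℕ)) with hu
  have hI2 : ∑ s : Fin 4 → F, val φ 5 (u s) *
      (ι (cst F (HahnSeries.coeff (emb F m * u s) 1))) ^ k = 0 := by
    rw [← hI]
    unfold SInt
    refine Finset.sum_congr rfl (fun s _ => ?_)
    rw [hdig s]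
    have : ((4 : ℕ) : ℤ) + 1 = 5 := by norm_num
    rw [this]
    rfl
  have hpow : ∀ c : F, (ι (cst F c)) ^ k =
      ∑ b ∈ Finset.univ.filter (fun b : F => b ≠ 0), if c = b then (1 : C) else 0 := by
    intro c
    by_cases hc : c = 0
    · rw [hc, map_zero, map_zero, zero_pow hk0]
      symm
      refine Finset.sum_eq_zero (fun b hb => ?_)
      rw [if_neg]
      intro h
      exact (Finset.mem_filter.1 hb).2 h.symm
    · rw [← map_pow, ← map_pow, FiniteField.pow_card_sub_one_eq_one _ hc, map_one, map_one,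
        Finset.sum_ite_eq, if_pos]
      simpa using hc
  have hus : ∀ (c : F) (s : Fin 4 → F), u (fun j => c * s j) = cst F c * u s := by
    intro c s
    rw [hu]
    simp only
    rw [Finset.mul_sum]
    refine Finset.sum_congr rfl (fun j _ => ?_)
    rw [map_mul]
    ring
  have hclass : ∀ b : F, b ≠ 0 →
      ∑ s : Fin 4 → F, val φ 5 (u s) *
        (if HahnSeries.coeff (emb F m * u s) 1 = b then (1 : C) else 0) =
      ∑ s : Fin 4 → F, (if HahnSeries.coeff (emb F m * u s) 1 = 1 then val φ 5 (u s) else 0) := by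
    intro b hb
    symm
    refine Fintype.sum_equiv (Equiv.piCongrRight (fun _ : Fin 4 => Equiv.mulLeft₀ b hb)) _ _ ?_
    intro s
    have h1 : (Equiv.piCongrRight (fun _ : Fin 4 => Equiv.mulLeft₀ b hb)) s =
        fun j => b * s j := rfl
    rw [h1, hus b s, w2 5 (u s) b hb]
    have h2 : emb F m * (cst F b * u s) = cst F b * (emb F m * u s) := by ring
    rw [h2, l3]
    by_cases h3 : HahnSeries.coeff (emb F m * u s) 1 = 1
    · rw [if_pos h3, if_pos (by rw [h3, mul_one]), mul_one]
    · rw [if_neg h3, if_neg (fun h => h3 (mul_left_cancel₀ hb (by rw [h, mul_one]))), mul_zero]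
  have hfin : ∑ s : Fin 4 → F, val φ 5 (u s) *
      (ι (cst F (HahnSeries.coeff (emb F m * u s) 1))) ^ k =
      ∑ b ∈ Finset.univ.filter (fun b : F => b ≠ 0), ∑ s : Fin 4 → F,
        (if HahnSeries.coeff (emb F m * u s) 1 = 1 then val φ 5 (u s) else 0) := by
    have h1 : ∀ b ∈ Finset.univ.filter (fun b : F => b ≠ 0), ∑ s : Fin 4 → F,
        (if HahnSeries.coeff (emb F m * u s) 1 = 1 then val φ 5 (u s) else 0) =
        ∑ s : Fin 4 → F, val φ 5 (u s) *
        (if HahnSeries.coeff (emb F m * u s) 1 = b then (1 : C) else 0) := fun b hb =>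
      (hclass b (Finset.mem_filter.1 hb).2).symm
    rw [Finset.sum_congr rfl h1, Finset.sum_comm]
    refine Finset.sum_congr rfl (fun s _ => ?_)
    rw [hpow, Finset.mul_sum]
  rw [hfin, Finset.sum_const, nsmul_eq_mul] at hI2
  have hcardC : ((Fintype.card F : ℕ) : C) = 0 := by
    have h1 : (ι.comp (cst F)) ((Fintype.card F : ℕ) : F) = ((Fintype.card F : ℕ) : C) :=
      map_natCast _ _
    rw [← h1, FiniteField.cast_card_eq_zero, map_zero]
  have hfc : (((Finset.univ.filter (fun b : F => b ≠ 0)).card : ℕ) : C) = -1 := by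
    have h1 : (Finset.univ.filter (fun b : F => b ≠ 0)).card + 1 = Fintype.card F := by
      rw [Finset.filter_ne', Finset.card_erase_of_mem (Finset.mem_univ _), Finset.card_univ]
      omega
    have h2 : (((Finset.univ.filter (fun b : F => b ≠ 0)).card : ℕ) : C) + 1 = 0 := by
      rw [← hcardC, ← h1]
      push_cast
      rfl
    exact eq_neg_of_add_eq_zero_left h2
  rw [hfc] at hI2
  rw [neg_one_mul, neg_eq_zero] at hI2
  exact hI2

end Pool.Agent.HK.H17R
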